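import Pool.Agent.Helper70.SK.Stmts
import Pool.Agent.Helper70.SK.Lib
import Pool.Agent.Helper47.DK.E5

/-! SK module IND: conditional entropies on product spaces. -/

namespace Pool.Agent.Helper70.SK

open Finset Pool.Agent.Helper70.DK

theorem ind_ent_empty {Ω α : Type} (f : Ω → α) : ent (∅ : Finset Ω) f = 0 := by
  simp [ent]

theorem ind_cent_empty {Ω α β : Type} (f : Ω → α) (g : Ω → β) : cent (∅ : Finset Ω) f g = 0 := by
  simp [cent, ind_ent_empty]

open Classical in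
/-- conditional entropy by the cardinalities of the fibres -/
theorem ind_cent_eq {Ω α β : Type} (S : Finset Ω) (f : Ω → α) (g : Ω → β) :
    cent S f g = (∑ ω ∈ S, (Real.log ((S.filter (fun ω' => g ω' = g ω)).card : ℝ) -
      Real.log ((S.filter (fun ω' => (f ω', g ω') = (f ω, g ω))).card : ℝ))) / (S.card : ℝ) := by
  unfold cent ent
  rw [← sub_div, ← Finset.sum_sub_distrib]
  congr 1
  refine Finset.sum_congr rfl fun ω _ => ?_
  ring

theorem ind_ent_id {Ω : Type} (S : Finset Ω) : ent S (fun x => x) = Real.log S.card := by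
  classical
  rcases S.eq_empty_or_nonempty with hS | hS
  · subst hS
    simp [ent]
  have hn : (0 : ℝ) < S.card := by exact_mod_cast hS.card_pos
  unfold ent
  rw [div_eq_iff hn.ne']
  have : ∀ ω ∈ S, (Real.log (S.card : ℝ) - Real.log ((S.filter (fun ω' => ω' = ω)).card : ℝ)) =
      Real.log (S.card : ℝ) := by
    intro ω hω
    have h1 : S.filter (fun ω' => ω' = ω) = {ω} := by
      ext a
      simp only [Finset.mem_filter, Finset.mem_singleton]
      exact ⟨fun h => h.2, fun h => ⟨h ▸ hω, h⟩⟩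
    rw [h1]
    simp
  rw [Finset.sum_congr rfl this, Finset.sum_const, nsmul_eq_mul]
  ring

theorem ind_filter_prod {Ω1 Ω2 : Type} (S1 : Finset Ω1) (S2 : Finset Ω2) (P : Ω1 × Ω2 → Prop)
    (P1 : Ω1 → Prop) (P2 : Ω2 → Prop) {dP : DecidablePred P} [DecidablePred P1] [DecidablePred P2]
    (h : ∀ p, P p ↔ (P1 p.1 ∧ P2 p.2)) :
    ((S1 ×ˢ S2).filter P).card = (S1.filter P1).card * (S2.filter P2).card := by
  rw [← Finset.card_product]
  congr 1
  ext p
  simp only [Finset.mem_filter, Finset.mem_product, h]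
  tauto

theorem st_IND : ST_IND := by
  classical
  obtain ⟨e1, e2, e3, e4, e5⟩ := st_E5
  refine ⟨?_, ?_, ?_, ?_⟩
  · intro Ω1 Ω2 α β S1 S2 f Z h2
    constructor
    · unfold cent
      rw [e1 Ω1 Ω2 (α × β) S1 S2 (fun x => (f x, Z x)) h2, e1 Ω1 Ω2 β S1 S2 Z h2]
    · rcases S1.eq_empty_or_nonempty with h1 | h1
      · subst h1
        simp [ind_cent_empty]
      unfold cent
      have a1 := ent_congr (S1 ×ˢ S2) (fun p => (f p.1, (Z p.1, p.2))) (fun p => ((f p.1, Z p.1), p.2)) (by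
        intro x _ y _
        simp only [Prod.ext_iff]
        tauto)
      have a2 := e3 Ω1 Ω2 (α × β) Ω2 S1 S2 (fun x => (f x, Z x)) (fun y => y) h1 h2
      have a3 := e3 Ω1 Ω2 β Ω2 S1 S2 Z (fun y => y) h1 h2
      rw [a1, a2, a3]
      ring
  · intro Ω1 Ω2 α β S1 S2 f Z h1
    constructor
    · unfold cent
      rw [e2 Ω1 Ω2 (α × β) S1 S2 (fun x => (f x, Z x)) h1, e2 Ω1 Ω2 β S1 S2 Z h1]
    · rcases S2.eq_empty_or_nonempty with h2 | h2
      · subst h2
        simp [ind_cent_empty]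
      unfold cent
      have a1 := ent_congr (S1 ×ˢ S2) (fun p => (f p.2, (p.1, Z p.2))) (fun p => (p.1, (f p.2, Z p.2))) (by
        intro x _ y _
        simp only [Prod.ext_iff]
        tauto)
      have a2 := e3 Ω1 Ω2 Ω1 (α × β) S1 S2 (fun y => y) (fun x => (f x, Z x)) h1 h2
      have a3 := e3 Ω1 Ω2 Ω1 β S1 S2 (fun y => y) Z h1 h2
      rw [a1, a2, a3]
      ring
  · intro Ω1 Ω2 α β ζ S1 S2 c T f
    rw [ind_cent_eq, ind_cent_eq]
    congr 1
    refine Finset.sum_congr rfl fun p hp => ?_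
    have hp' := Finset.mem_product.1 hp
    rw [ind_filter_prod S1 S2 (fun ω' => (T ω'.2, c ω'.1) = (T p.2, c p.1))
      (fun x => c x = c p.1) (fun y => T y = T p.2) (by
        intro ω
        simp only [Prod.ext_iff]
        tauto)]
    rw [ind_filter_prod S1 S2
      (fun ω' => (f (c ω'.1) ω'.2, (T ω'.2, c ω'.1)) = (f (c p.1) p.2, (T p.2, c p.1)))
      (fun x => c x = c p.1) (fun y => T y = T p.2 ∧ f (c p.1) y = f (c p.1) p.2) (by
        intro ω
        simp only [Prod.ext_iff]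
        constructor
        · rintro ⟨h1, h2, h3⟩
          exact ⟨h3, h2, by rw [← h3, h1, h3]⟩
        · rintro ⟨h3, h2, h1⟩
          exact ⟨by rw [h3, h1], h2, h3⟩)]
    rw [ind_filter_prod S1 S2 (fun ω' => (T ω'.2, ω'.1) = (T p.2, p.1))
      (fun x => x = p.1) (fun y => T y = T p.2) (by
        intro ω
        simp only [Prod.ext_iff]
        tauto)]
    rw [ind_filter_prod S1 S2
      (fun ω' => (f (c ω'.1) ω'.2, (T ω'.2, ω'.1)) = (f (c p.1) p.2, (T p.2, p.1)))
      (fun x => x = p.1) (fun y => T y = T p.2 ∧ f (c p.1) y = f (c p.1) p.2) (by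
        intro ω
        simp only [Prod.ext_iff]
        constructor
        · rintro ⟨h1, h2, h3⟩
          exact ⟨h3, h2, by rw [← h3, h1, h3]⟩
        · rintro ⟨h3, h2, h1⟩
          exact ⟨by rw [h3, h1], h2, h3⟩)]
    push_cast
    have c1 : (0 : ℝ) < ((S1.filter (fun x => c x = c p.1)).card : ℝ) :=
      Nat.cast_pos.2 (Finset.card_pos.2 ⟨p.1, by
        rw [Finset.mem_filter]; exact ⟨hp'.1, rfl⟩⟩)
    have c2 : (0 : ℝ) < ((S1.filter (fun x => x = p.1)).card : ℝ) :=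
      Nat.cast_pos.2 (Finset.card_pos.2 ⟨p.1, by
        rw [Finset.mem_filter]; exact ⟨hp'.1, rfl⟩⟩)
    have c3 : (0 : ℝ) < ((S2.filter (fun y => T y = T p.2)).card : ℝ) :=
      Nat.cast_pos.2 (Finset.card_pos.2 ⟨p.2, by
        rw [Finset.mem_filter]; exact ⟨hp'.2, rfl⟩⟩)
    have c4 : (0 : ℝ) < ((S2.filter (fun y => T y = T p.2 ∧ f (c p.1) y = f (c p.1) p.2)).card : ℝ) :=
      Nat.cast_pos.2 (Finset.card_pos.2 ⟨p.2, by
        rw [Finset.mem_filter]; exact ⟨hp'.2, rfl, rfl⟩⟩)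
    rw [Real.log_mul c1.ne' c3.ne', Real.log_mul c1.ne' c4.ne', Real.log_mul c2.ne' c3.ne',
      Real.log_mul c2.ne' c4.ne']
    ring
  · intro Ω1 Ω2 β S1 S2 Z h1 h2
    unfold cent
    have a2 := e3 Ω1 Ω2 Ω1 β S1 S2 (fun y => y) Z h1 h2
    rw [a2, e2 Ω1 Ω2 β S1 S2 Z h1, ind_ent_id]
    ring

end Pool.Agent.Helper70.SK
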