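import Pool.Agent.Helper70.SK.Stmts
import Pool.Agent.Helper70.SK.Lib

/-! SK module JB: the mutual information of the two points of a pair. -/

namespace Pool.Agent.Helper70.SK

open Finset Pool.Agent.Helper70.DK

variable {Ω α β γ δ ζ : Type}

/-- conditional mutual information is nonnegative -/
theorem jb_nonneg (S : Finset Ω) (f : Ω → α) (f' : Ω → β) (g : Ω → γ) :
    0 ≤ cent S f g - cent S f (fun ω => (f' ω, g ω)) := by
  have := cent_mono_right S f g (fun ω => (f' ω, g ω)) (fun x _ y _ e => (Prod.ext_iff.1 e).2)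
  linarith

/-- conditional mutual information is monotone -/
theorem jb_mono (S : Finset Ω) (f : Ω → α) (f' : Ω → β) (F : Ω → δ) (F' : Ω → ζ) (g : Ω → γ)
    (h : ∀ x ∈ S, ∀ y ∈ S, F x = F y → f x = f y) (h' : ∀ x ∈ S, ∀ y ∈ S, F' x = F' y → f' x = f' y) :
    cent S f g - cent S f (fun ω => (f' ω, g ω)) ≤ cent S F g - cent S F (fun ω => (F' ω, g ω)) := by
  have a1 := cent_mono_right S f (fun ω => (f' ω, g ω)) (fun ω => (F' ω, g ω)) (by
    intro x hx y hy e
    have e' := Prod.ext_iff.1 e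
    exact Prod.ext (h' x hx y hy e'.1) e'.2)
  have a2 := cent_chain S f F g
  have a3 := cent_congr_left S F (fun ω => (f ω, F ω)) g (by
    intro x hx y hy _
    simp only [Prod.ext_iff]
    exact ⟨fun e => e.2, fun e => ⟨h x hx y hy e, e⟩⟩)
  have a4 := cent_chain S f F (fun ω => (F' ω, g ω))
  have a5 := cent_congr_left S F (fun ω => (f ω, F ω)) (fun ω => (F' ω, g ω)) (by
    intro x hx y hy _
    simp only [Prod.ext_iff]
    exact ⟨fun e => e.2, fun e => ⟨h x hx y hy e, e⟩⟩)
  have a6 := cent_mono_right S F (fun ω => (f ω, g ω)) (fun ω => (f ω, F' ω, g ω)) (by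
    intro x _ y _ e
    have e' := Prod.ext_iff.1 e
    exact Prod.ext e'.1 (Prod.ext_iff.1 e'.2).2)
  linarith

/-- if `f` and `f'` are conditionally independent given `(y, g)` then their information given `g` is at most
`H(y | g)` -/
theorem jb_markov (S : Finset Ω) (f : Ω → α) (f' : Ω → β) (g : Ω → γ) (y : Ω → δ) (W : Ω → ζ)
    (hW : ∀ a ∈ S, ∀ b ∈ S, W a = W b ↔ (y a = y b ∧ g a = g b))
    (hi : cent S f (fun ω => (f' ω, W ω)) = cent S f W) :
    cent S f g - cent S f (fun ω => (f' ω, g ω)) ≤ cent S y g := by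
  have a1 := cent_le_add S f g y
  have a2 := cent_congr_right S f W (fun ω => (y ω, g ω)) (by
    intro a ha b hb
    rw [hW a ha b hb]
    simp only [Prod.ext_iff])
  have a3 := cent_mono_right S f (fun ω => (f' ω, g ω)) (fun ω => (f' ω, W ω)) (by
    intro a ha b hb e
    have e' := Prod.ext_iff.1 e
    exact Prod.ext e'.1 ((hW a ha b hb).1 e'.2).2)
  linarith

/-- the cells of level `i` are unions of cells of level `i' ≥ i` -/
theorem jb_tr {m q : ℕ} (σ : Sy m q) (B i i' : ℕ) (hi : i ≤ i') (hn : i' ≤ σ.n) (x y : Fin m → ℤ)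
    (h : σ.tr B i' x = σ.tr B i' y) : σ.tr B i x = σ.tr B i y := by
  have key : ∀ z : Fin m → ℤ, ∀ c, σ.tr B i z c = σ.tr B i' z c / (B : ℤ) ^ (i' - i) := by
    intro z c
    unfold Sy.tr cl
    rw [Int.ediv_ediv_of_nonneg (by positivity), ← pow_add]
    congr 2
    omega
  funext c
  rw [key x c, key y c, h]

/-- the number of cells of side `B ^ a` in a cube of side `B ^ (a + d)`, shifted -/
theorem jb_count (b D : ℤ) (hb : 0 < b) (u P : ℤ) :
    ∀ y : ℤ, (b * y + u) / (b * D) = P → 0 < b * D →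
      y ∈ Finset.Ico (-((u - P * (b * D)) / b)) (-((u - P * (b * D)) / b) + D) := by
  intro y hy hD
  have h1 : P * (b * D) ≤ b * y + u := by
    rw [← hy]
    exact Int.ediv_mul_le _ hD.ne'
  have h2 : b * y + u < (P + 1) * (b * D) := by
    rw [← hy]
    exact Int.lt_ediv_add_one_mul_self _ hD
  rw [Finset.mem_Ico]
  constructor
  · have h3 : -y ≤ (u - P * (b * D)) / b := by
      rw [Int.le_ediv_iff_mul_le hb]
      nlinarith
    linarith
  · have h3 : ¬ (-(y - D) ≤ (u - P * (b * D)) / b) := by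
      rw [Int.le_ediv_iff_mul_le hb]
      intro h4
      nlinarith
    linarith

theorem st_JB (hA : ST_PARA) (hB : ST_PARB) : ST_JB := by
  classical
  intro m q B R κ D C σ hB2 hR hD hσ k K hkK hKn
  refine ⟨fun i l => jb_nonneg _ _ _ _, ?_, ?_⟩
  · intro i i' l hi hn
    unfold Sy.Jj
    exact jb_mono _ _ _ _ _ _ (fun x _ y _ e => jb_tr σ B i i' hi hn _ _ e)
      (fun x _ y _ e => jb_tr σ B i i' hi hn _ _ e)
  · intro i l hl
    unfold Sy.Jj
    have hBpos : (0 : ℤ) < (B : ℤ) := by exact_mod_cast (by omega : 0 < B)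
    have hmk := jb_markov (σ.Pa B) (fun ω => σ.tr B i ω.1.1.2) (fun ω => σ.tr B i (σ.x1 B k K ω))
      (fun ω => (σ.Cf B K l ω.1.1 ω.2, σ.tr B k ω.1.1.2, ω.1.1.1, ω.2))
      (fun ω => cl B (σ.e K) (σ.Y B ω.1.1.1 ω.1.1.2))
      (fun ω => (σ.ff B k K ω.1.1, ω.2)) (by
        intro a _ b _
        unfold Sy.ff Sy.Cf
        simp only [Prod.ext_iff]
        constructor
        · rintro ⟨⟨h1, h2, h3⟩, h4⟩
          refine ⟨h3, ?_, h2, h1, h4⟩
          have h3' : ∀ r, σ.Y B a.1.1.1 a.1.1.2 r / (B : ℤ) ^ σ.e K =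
              σ.Y B b.1.1.1 b.1.1.2 r / (B : ℤ) ^ σ.e K := fun r => congrFun h3 r
          have h5 : (fun r => (B : ℤ) ^ σ.e K * (σ.Y B a.1.1.1 a.1.1.2 r / (B : ℤ) ^ σ.e K) + a.2 r) =
              (fun r => (B : ℤ) ^ σ.e K * (σ.Y B b.1.1.1 b.1.1.2 r / (B : ℤ) ^ σ.e K) + b.2 r) := by
            funext r
            rw [h3' r, h4]
          rw [h5]
        · rintro ⟨h3, _, h2, h1, h4⟩
          exact ⟨⟨h1, h2, h3⟩, h4⟩) (by
        have h1 := hB m q B k K σ (Fin m → ℤ) (Fin m → ℤ) (fun p => σ.tr B i p.1.2)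
          (fun p => σ.tr B i p.1.2)
        unfold cent
        simp only at h1 ⊢
        linarith)
    refine hmk.trans ?_
    have hcard := cent_card (σ.Pa B) (fun ω => cl B (σ.e K) (σ.Y B ω.1.1.1 ω.1.1.2))
      (fun ω => (σ.Cf B K l ω.1.1 ω.2, σ.tr B k ω.1.1.2, ω.1.1.1, ω.2)) (B ^ ((K - l) * q)) (by
        rintro ⟨P, τ, γ0, u⟩
        refine ⟨Fintype.piFinset fun r => Finset.Ico
          (-((u r - P r * ((B : ℤ) ^ σ.e K * (B : ℤ) ^ (K - l))) / (B : ℤ) ^ σ.e K))
          (-((u r - P r * ((B : ℤ) ^ σ.e K * (B : ℤ) ^ (K - l))) / (B : ℤ) ^ σ.e K) +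
            (B : ℤ) ^ (K - l)), ?_, ?_⟩
        · rw [Fintype.card_piFinset]
          have : ∀ r : Fin q, (Finset.Ico
              (-((u r - P r * ((B : ℤ) ^ σ.e K * (B : ℤ) ^ (K - l))) / (B : ℤ) ^ σ.e K))
              (-((u r - P r * ((B : ℤ) ^ σ.e K * (B : ℤ) ^ (K - l))) / (B : ℤ) ^ σ.e K) +
                (B : ℤ) ^ (K - l))).card = B ^ (K - l) := by
            intro r
            rw [Int.card_Ico, add_sub_cancel_left]
            have : ((B : ℤ) ^ (K - l)) = ((B ^ (K - l) : ℕ) : ℤ) := by push_cast; ring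
            rw [this, Int.toNat_natCast]
          rw [Finset.prod_congr rfl fun r _ => this r, Finset.prod_const, Finset.card_univ,
            Fintype.card_fin, ← pow_mul]
        · rintro ω _ hω
          simp only [Prod.ext_iff] at hω
          obtain ⟨h1, _, _, h4⟩ := hω
          rw [Fintype.mem_piFinset]
          intro r
          have h5 := congrFun h1 r
          unfold Sy.Cf cl at h5
          have he : σ.e l = σ.e K + (K - l) := by
            unfold Sy.e
            omega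
          rw [he, pow_add, h4] at h5
          exact jb_count ((B : ℤ) ^ σ.e K) ((B : ℤ) ^ (K - l)) (by positivity) (u r) (P r)
            (σ.Y B ω.1.1.1 ω.1.1.2 r / (B : ℤ) ^ σ.e K) h5 (by positivity))
    refine hcard.trans (le_of_eq ?_)
    push_cast
    rw [Real.log_pow]
    push_cast
    rw [Nat.cast_sub hl]
    ring

end Pool.Agent.Helper70.SK
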