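import Pool.Agent.Helper70.SK.Stmts
import Pool.Agent.Helper70.SK.Lib

/-! SK module MIN: the minimal entropy rate. -/

namespace Pool.Agent.Helper70.SK

open Finset Pool.Agent.Helper70.DK

theorem min_h_nonneg {m q : ℕ} (σ : Sy m q) (B L : ℕ) : 0 ≤ ∑ γ ∈ σ.G, σ.h B γ L :=
  Finset.sum_nonneg fun _ _ => ent_nonneg _ _

theorem st_MIN : ST_MIN := by
  intro m q hEQ
  unfold EQ at hEQ
  push Not at hEQ
  obtain ⟨B, R, κ, D, C0, ε0, hB, hR, hκ, hD, hC0, hε0, hbad⟩ := hEQ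
  have hBr : (1 : ℝ) < B := by exact_mod_cast (by omega : 1 < B)
  have hlog : 0 < Real.log B := Real.log_pos hBr
  -- positivity of the scale
  have hsc : ∀ (σ : Sy m q) (C : ℝ), σ.Ok B R κ D C → ∀ L : ℕ, 0 ≤ (L : ℝ) * Real.log B * σ.G.card := by
    intro σ C _ L
    positivity
  have hsc' : ∀ (σ : Sy m q) (C : ℝ), σ.Ok B R κ D C → ∀ L : ℕ, 1 ≤ L →
      0 < (L : ℝ) * Real.log B * σ.G.card := by
    intro σ C hσ L hL
    have h1 : (0 : ℝ) < σ.G.card := by exact_mod_cast hσ.ne.card_pos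
    have h2 : (0 : ℝ) < L := by exact_mod_cast (by omega : 0 < L)
    positivity
  set T : Set ℝ := {θ | 0 ≤ θ ∧ ∃ C : ℝ, 0 ≤ C ∧ ∀ L0 : ℕ, ∃ (σ : Sy m q) (L : ℕ), σ.Ok B R κ D C ∧
    L0 ≤ L ∧ L ≤ σ.n ∧ ∑ γ ∈ σ.G, σ.h B γ L ≤ θ * (L * Real.log B * σ.G.card)} with hT
  have hqT : (q : ℝ) - ε0 ∈ T := by
    refine ⟨?_, C0, hC0, ?_⟩
    · obtain ⟨σ, hσ, L, hL, hLn, hlt⟩ := hbad 1
      have h1 := min_h_nonneg σ B L
      have h2 := hsc' σ C0 hσ L hL
      by_contra hneg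
      have h3 : ((q : ℝ) - ε0) * (L * Real.log B * σ.G.card) < 0 :=
        mul_neg_of_neg_of_pos (not_le.1 hneg) h2
      have h4 : ((q : ℝ) - ε0) * (L * Real.log B * σ.G.card) =
        ((q : ℝ) - ε0) * L * Real.log B * σ.G.card := by ring
      linarith
    · intro L0
      obtain ⟨σ, hσ, L, hL, hLn, hlt⟩ := hbad L0
      refine ⟨σ, L, hσ, hL, hLn, ?_⟩
      have h4 : ((q : ℝ) - ε0) * (L * Real.log B * σ.G.card) =
        ((q : ℝ) - ε0) * L * Real.log B * σ.G.card := by ring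
      linarith
  have hbdd : BddBelow T := ⟨0, fun θ hθ => hθ.1⟩
  have he0 : 0 ≤ sInf T := le_csInf ⟨_, hqT⟩ fun θ hθ => hθ.1
  have heq : sInf T ≤ (q : ℝ) - ε0 := csInf_le hbdd hqT
  refine ⟨B, R, κ, D, sInf T, hB, hR, hκ, hD, he0, by linarith, ?_, ?_⟩
  · intro C ε hC hε
    by_contra hno
    push Not at hno
    have hin : sInf T - ε ∈ T := by
      refine ⟨?_, C, hC, ?_⟩
      · obtain ⟨σ, hσ, L, hL, hLn, hlt⟩ := hno 1
        have h1 := min_h_nonneg σ B L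
        have h2 := hsc' σ C hσ L hL
        by_contra hneg
        have h3 : (sInf T - ε) * (L * Real.log B * σ.G.card) < 0 :=
          mul_neg_of_neg_of_pos (not_le.1 hneg) h2
        have h4 : (sInf T - ε) * (L * Real.log B * σ.G.card) =
          (sInf T - ε) * L * Real.log B * σ.G.card := by ring
        linarith
      · intro L0
        obtain ⟨σ, hσ, L, hL, hLn, hlt⟩ := hno L0
        refine ⟨σ, L, hσ, hL, hLn, ?_⟩
        have h4 : (sInf T - ε) * (L * Real.log B * σ.G.card) =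
          (sInf T - ε) * L * Real.log B * σ.G.card := by ring
        linarith
    have := csInf_le hbdd hin
    linarith
  · intro ε hε
    obtain ⟨θ, hθ, hlt⟩ := exists_lt_of_csInf_lt ⟨_, hqT⟩ (show sInf T < sInf T + ε by linarith)
    obtain ⟨h0, C, hC, hall⟩ := hθ
    refine ⟨C, hC, fun L0 => ?_⟩
    obtain ⟨σ, L, hσ, hL, hLn, hle⟩ := hall L0
    refine ⟨σ, L, hσ, hL, hLn, hle.trans ?_⟩
    have h2 := hsc σ C hσ L
    have h4 : (sInf T + ε) * L * Real.log B * σ.G.card = (sInf T + ε) * (L * Real.log B * σ.G.card) := by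
      ring
    rw [h4]
    exact mul_le_mul_of_nonneg_right hlt.le h2

end Pool.Agent.Helper70.SK
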